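import Mathlib
import Pool.Agent.P.MP_0f6e60_lc.Barrier

namespace Pool.Agent.Results.MP_0f6e60_lc.BottleneckBarrier

open Pool.Agent.P.MP_0f6e60_lc.Barrier Finset Classical

/-- Let `F` be an unsatisfiable `k`-CNF in `n` variables and let `H` be a random set of clauses
that contains the empty clause and no clause of `F`. Then some clause `D` is, with probability at
least `(2/3)^n / (n + ∑_{j<k} C(n,j))`, the first member of `H` in some derivation from `F`. -/
theorem result (n k : ℕ) (F : Finset (Finset (Fin n × Bool))) (hk : ∀ C ∈ F, C.card ≤ k)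
    (hu : ∀ a : Fin n → Bool, ∃ C ∈ F, ∀ l ∈ C, a l.1 ≠ l.2)
    (p : Finset (Finset (Fin n × Bool)) → ℝ) (hp0 : ∀ H, 0 ≤ p H) (hp1 : ∑ H, p H = 1)
    (hp : ∀ H, p H ≠ 0 → ∅ ∈ H ∧ ∀ C ∈ F, C ∉ H) :
    ∃ D : Finset (Fin n × Bool),
      (2 / 3 : ℝ) ^ n / (n + ∑ j ∈ range k, (n.choose j : ℝ)) ≤ ∑ H with First F H D, p H := by
  obtain ⟨D, -, hD⟩ := exists_max_image univ (fun D => ∑ H with First F H D, p H) univ_nonempty
  refine ⟨D, ?_⟩
  set q := ∑ H with First F H D, p H
  have hq : 0 ≤ q := sum_nonneg fun H _ => hp0 H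
  have avg : ∀ {ι : Type} (I : Finset ι) (c : ι → Finset (Fin n × Bool)),
      ∑ H, p H * #{x ∈ I | First F H (c x)} ≤ #I * q := fun I c => by
    simp only [card_filter, Nat.cast_sum, mul_sum]
    rw [sum_comm, ← nsmul_eq_mul]
    refine sum_le_card_nsmul _ _ _ fun x _ => le_trans (le_of_eq ?_) (hD (c x) (mem_univ _))
    simp [sum_filter]
  have h1 : (2 : ℝ) ^ n ≤ (n + ∑ j ∈ range k, (n.choose j : ℝ)) * 3 ^ n * q := by
    have a := avg ((univ : Finset (Fin n)) ×ˢ NT n) fun x => cut x.2 x.1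
    have b := avg (({S : Finset (Fin n) | #S < k} : Finset _) ×ˢ NT n) fun x => x.2
    have c : (#(NT n) : ℝ) ≤ 3 ^ n := by exact_mod_cast card_NT
    have d : (#{S : Finset (Fin n) | #S < k} : ℝ) ≤ ∑ j ∈ range k, (n.choose j : ℝ) := by
      exact_mod_cast card_small k
    rw [card_product, Nat.cast_mul] at a b
    rw [card_univ, Fintype.card_fin] at a
    calc (2 : ℝ) ^ n = ∑ H, p H * 2 ^ n := by rw [← sum_mul, hp1, one_mul]
      _ ≤ _ := sum_le_sum fun H _ => ?_
      _ = _ := sum_add_distrib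
      _ ≤ _ := add_le_add a b
      _ ≤ n * 3 ^ n * q + (∑ j ∈ range k, (n.choose j : ℝ)) * 3 ^ n * q := by gcongr
      _ = _ := by ring
    rcases eq_or_ne (p H) 0 with h | h
    · simp [h]
    · rw [← mul_add]
      exact mul_le_mul_of_nonneg_left
        (by exact_mod_cast count_first hk hu (hp H h).1 (hp H h).2) (hp0 H)
  refine div_le_of_le_mul₀ (by positivity) hq ?_
  rw [div_pow, div_le_iff₀ (by positivity)]
  linarith

end Pool.Agent.Results.MP_0f6e60_lc.BottleneckBarrier
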