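import Mathlib
import Pool.Agent.K.MP_0f6e60_lc.C2

namespace Pool.Agent.Results.MP_0f6e60_lc.SharpRate

/-- Size `2 ^ ((1 - δ - C (1 + r L) L / k) n)`, `L = log (k / (r + 1))`, for resolution
refutations each of whose paths splits into segments `0, ..., r` such that in each segment at most
`δ n` variables are resolved on that were resolved on at an earlier step of the path.
`J i` is the justification of line `i` (`none`: a clause of `F`; `some (j, l, x)`: resolvent of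
lines `j`, `l` on `x`); `p 0, ..., p t` is a path with pivots `v 0, ..., v (t - 1)`; `g u` is the
number of the segment of step `u`. -/
theorem result :
    ∃ C : ℝ, ∃ k₀ : ℕ, ∀ k r : ℕ, k₀ * (r + 1) ≤ k → ∃ n₀ : ℕ, ∀ n : ℕ, n₀ ≤ n →
      ∃ F : Finset (Finset (Fin n × Bool)),
        (∀ D ∈ F, D.card ≤ k) ∧
        (∀ a : Fin n → Bool, ∃ D ∈ F, ∀ l ∈ D, a l.1 ≠ l.2) ∧
        ∀ (δ : ℝ) (s : ℕ) (P : Fin s → Finset (Fin n × Bool))
          (J : Fin s → Option (Fin s × Fin s × Fin n)),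
          (∃ i : Fin s, P i = ∅) →
          (∀ i : Fin s, J i = none → P i ∈ F) →
          (∀ (i j l : Fin s) (x : Fin n), J i = some (j, l, x) → j < i ∧ l < i ∧
            (x, true) ∈ P j ∧ (x, false) ∈ P l ∧
            P i = (P j).erase (x, true) ∪ (P l).erase (x, false)) →
          (∀ (t : ℕ) (p : ℕ → Fin s) (v : ℕ → Fin n),
            (∀ u < t, ∃ j l : Fin s, J (p u) = some (j, l, v u) ∧
              (p (u + 1) = j ∨ p (u + 1) = l)) →
            ∃ g : ℕ → ℕ, Monotone g ∧ g t ≤ r ∧ ∀ j : ℕ,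
              (Set.ncard {x : Fin n | ∃ a b : ℕ, a < b ∧ b < t ∧ g b = j ∧ v a = x ∧ v b = x} : ℝ)
                ≤ δ * (n : ℝ)) →
          (2 : ℝ) ^ ((1 - δ - C * ((1 + (r : ℝ) * Real.log ((k : ℝ) / ((r : ℝ) + 1))) *
            Real.log ((k : ℝ) / ((r : ℝ) + 1)) / (k : ℝ))) * (n : ℝ)) ≤ (s : ℝ) := by
  refine ⟨600, 1048576, fun k r hk => ⟨k, fun n hn => ?_⟩⟩
  obtain ⟨F, f1, f2, f3⟩ := Pool.Agent.P.MP_0f6e60_lc.rate_main hk hn
  refine ⟨F, f1, f2, fun δ s P J a1 a2 a3 a4 => f3 δ s P J a1 a2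
    (fun i j l x h => ⟨(a3 i j l x h).1, (a3 i j l x h).2.1, (a3 i j l x h).2.2.2.2⟩)
    fun t p v hp => ?_⟩
  obtain ⟨g, g1, g2, g3⟩ := a4 t p v hp
  refine ⟨g, g1, g2, fun j => le_of_eq_of_le ?_ (g3 j)⟩
  rw [← Set.ncard_coe_finset]
  congr 2
  ext x
  simp [Pool.Agent.P.MP_0f6e60_lc.Rep]

end Pool.Agent.Results.MP_0f6e60_lc.SharpRate
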