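import Mathlib
import Pool.Agent.P.MP_0f6e60_lc.Pairs

namespace Pool.Agent.Results.MP_0f6e60_lc.SymmetricPairs

open Pool.Agent.P.MP_0f6e60_lc.Pairs

/-- An unsatisfiable `k`-CNF whose clause set is closed under exchanging the two variables of each
pair `{v, τ v}` (`τ` an involution) has a resolution refutation with at most
`2 * 4 ^ k * 3 ^ (number of pairs) * 2 ^ (number of unpaired variables)` lines. -/
theorem result (n k : ℕ) (F : Finset (Finset (Fin n × Bool))) (τ : Fin n → Fin n)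
    (hτ : ∀ v, τ (τ v) = v) (hk : ∀ C ∈ F, C.card ≤ k)
    (hu : ∀ a : Fin n → Bool, ∃ C ∈ F, ∀ l ∈ C, a l.1 ≠ l.2)
    (hF : ∀ v : Fin n, ∀ C ∈ F, C.image (fun l => (Equiv.swap v (τ v) l.1, l.2)) ∈ F) :
    ∃ (s : ℕ) (P : Fin s → Finset (Fin n × Bool)),
      (∃ i : Fin s, P i = ∅) ∧
      (∀ i : Fin s, P i ∈ F ∨
        ∃ j l : Fin s, j < i ∧ l < i ∧ ∃ v : Fin n,
          (v, true) ∈ P j ∧ (v, false) ∈ P l ∧
          P i = (P j).erase (v, true) ∪ (P l).erase (v, false)) ∧
      s ≤ 2 * 4 ^ k * 3 ^ (Finset.univ.filter fun v => v < τ v).card *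
        2 ^ (Finset.univ.filter fun v => τ v = v).card := by
  have h := main (F := F) (τ := τ) hτ hF hk hu (Finset.univ.filter fun v => v ≤ τ v).toList
    (L := []) (D := ∅) (O := ∅) (y := fun _ => true) (by simp) (by simp) (by simp)
    (fun v => by
      rcases le_total v (τ v) with h | h
      · simp [h]
      · simp [hτ v, h])
    ((Finset.nodup_toList _).pairwise_of_forall_ne fun u hu v hv huv => ⟨huv, fun h => by
      simp only [Finset.mem_toList, Finset.mem_filter, Finset.mem_univ, true_and] at hu hv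
      rw [h, hτ v] at hu
      exact huv (h.trans (le_antisymm hu hv))⟩) (by simp)
  obtain ⟨L, h1, -, h2, C, h3, h4⟩ := h [] Der.nil (List.Subset.refl _)
  obtain ⟨P, h5, h6⟩ := der_seq h1
  refine ⟨L.length, fun i => P i, ?_, fun i => ?_, ?_⟩
  · obtain ⟨i, hi, h7⟩ := h5 C h3
    exact ⟨⟨i, hi⟩, h7.trans (Finset.subset_empty.1 h4)⟩
  · rcases h6 i i.2 with h7 | ⟨j, hj, l, hl, v, h7⟩
    · exact Or.inl h7
    · exact Or.inr ⟨⟨j, hj.trans i.2⟩, ⟨l, hl.trans i.2⟩, hj, hl, v, h7⟩
  · rw [Finset.prod_map_toList, Finset.prod_ite, Finset.prod_const, Finset.prod_const,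
      Finset.filter_filter, Finset.filter_filter] at h2
    have e1 : (Finset.univ.filter fun v => v ≤ τ v ∧ τ v = v) =
        Finset.univ.filter fun v => τ v = v :=
      Finset.filter_congr fun v _ => ⟨fun h => h.2, fun h => ⟨h.ge, h⟩⟩
    have e2 : (Finset.univ.filter fun v => v ≤ τ v ∧ ¬τ v = v) =
        Finset.univ.filter fun v => v < τ v :=
      Finset.filter_congr fun v _ => ⟨fun h => lt_of_le_of_ne h.1 (Ne.symm h.2),
        fun h => ⟨h.le, h.ne'⟩⟩
    rw [e1, e2, List.length_nil, zero_add, mul_comm (2 ^ _), ← mul_assoc] at h2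
    exact h2.le

end Pool.Agent.Results.MP_0f6e60_lc.SymmetricPairs
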