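import Mathlib
import Pool.Agent.K.MP_0f6e60_lc.C3

namespace Pool.Agent.Results.MP_0f6e60_lc.TreeOptimal

/-- Tree-like resolution needs size `2 ^ ((1 - C / k) n)` on suitable `k`-CNF formulas.
`J i` is the justification of line `i` (`none`: a clause of `F`; `some (j, l, x)`: resolvent of
the earlier lines `j`, `l` on `x`). Tree-like: the two premises of a step are different lines and
each line `c` is a premise of at most one line. -/
theorem result :
    ∃ C : ℝ, ∃ k₀ : ℕ, ∀ k : ℕ, k₀ ≤ k → ∃ n₀ : ℕ, ∀ n : ℕ, n₀ ≤ n →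
      ∃ F : Finset (Finset (Fin n × Bool)),
        (∀ D ∈ F, D.card ≤ k) ∧
        (∀ a : Fin n → Bool, ∃ D ∈ F, ∀ l ∈ D, a l.1 ≠ l.2) ∧
        ∀ (s : ℕ) (P : Fin s → Finset (Fin n × Bool))
          (J : Fin s → Option (Fin s × Fin s × Fin n)),
          (∃ i : Fin s, P i = ∅) →
          (∀ i : Fin s, J i = none → P i ∈ F) →
          (∀ (i j l : Fin s) (x : Fin n), J i = some (j, l, x) → j < i ∧ l < i ∧ j ≠ l ∧
            (x, true) ∈ P j ∧ (x, false) ∈ P l ∧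
            P i = (P j).erase (x, true) ∪ (P l).erase (x, false)) →
          (∀ (c i j l i' j' l' : Fin s) (x x' : Fin n), J i = some (j, l, x) →
            J i' = some (j', l', x') → (c = j ∨ c = l) → (c = j' ∨ c = l') → i = i') →
          (2 : ℝ) ^ ((1 - C / (k : ℝ)) * (n : ℝ)) ≤ (s : ℝ) := by
  obtain ⟨C, k₀, h⟩ := Pool.Agent.P.MP_0f6e60_lc.T.tree_main
  refine ⟨C, k₀, fun k hk => ?_⟩
  obtain ⟨n₀, h⟩ := h k hk
  refine ⟨n₀, fun n hn => ?_⟩
  obtain ⟨F, f1, f2, f3⟩ := h n hn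
  exact ⟨F, f1, f2, fun s P J a1 a2 a3 a4 => f3 s P J a1 a2
    (fun i j l x h => ⟨(a3 i j l x h).1, (a3 i j l x h).2.1, (a3 i j l x h).2.2.2.2.2⟩)
    (fun i j l x h => (a3 i j l x h).2.2.1)
    fun i i' j l x j' l' x' c => a4 c i j l i' j' l' x x'⟩

end Pool.Agent.Results.MP_0f6e60_lc.TreeOptimal
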